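import Mathlib

/-!
The inequality for three monotone sequences with a shift (helper55), for the board gb.
-/

set_option autoImplicit false

namespace Pool.Agent.H55.GB

/-- the statement -/
def T_IN3D : Prop := ∀ (m : ℕ) (x y z : Fin m → ℝ) (d : ℝ), Monotone x → Monotone y →
  Monotone z → (∀ i, y i ≤ x i) → (∀ i, y i ≤ z i) →
    ∑ i, ∑ j, (max (y j - x i) 0 + max (y j - z i) 0 + max (x i - z j - d) 0) ≤
      m * max (∑ i, x i - ∑ i, z i - m * d) 0 +
        ∑ i, ∑ j, (if i < j then (x j - x i) + (y j - y i) + (z j - z i) else 0)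

/-- symmetric functions -/
theorem sum_sym {m : ℕ} (g : Fin m → Fin m → ℝ) (h0 : ∀ i, g i i = 0)
    (hs : ∀ i j, g i j = g j i) :
    ∑ i, ∑ j, g i j = 2 * ∑ i, ∑ j, (if i < j then g i j else 0) := by
  have h1 : ∀ i j, g i j = (if i < j then g i j else 0) + (if j < i then g i j else 0) := by
    intro i j
    rcases lt_trichotomy i j with h | h | h
    · rw [if_pos h, if_neg (not_lt.2 h.le), add_zero]
    · subst h
      rw [if_neg (lt_irrefl _), h0, add_zero]
    · rw [if_neg (not_lt.2 h.le), if_pos h, zero_add]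
  have h2 : ∑ i, ∑ j, (if j < i then g i j else 0) = ∑ i, ∑ j, (if i < j then g i j else 0) := by
    rw [Finset.sum_comm]
    refine Finset.sum_congr rfl fun i _ => Finset.sum_congr rfl fun j _ => ?_
    rw [hs j i]
  calc ∑ i, ∑ j, g i j = ∑ i, ∑ j, ((if i < j then g i j else 0) +
        (if j < i then g i j else 0)) :=
        Finset.sum_congr rfl fun i _ => Finset.sum_congr rfl fun j _ => h1 i j
    _ = ∑ i, ∑ j, (if i < j then g i j else 0) + ∑ i, ∑ j, (if j < i then g i j else 0) := by
        simp only [Finset.sum_add_distrib]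
    _ = _ := by rw [h2]; ring

theorem four {p q r s : ℝ} (h1 : p ≤ q) (h2 : r ≤ s) :
    |p - s| + |q - r| ≤ (q - p) + (s - r) + |p - r| + |q - s| - |(p - r) - (q - s)| := by
  rcases abs_cases (p - s) with ⟨a1, b1⟩ | ⟨a1, b1⟩ <;>
  rcases abs_cases (q - r) with ⟨a2, b2⟩ | ⟨a2, b2⟩ <;>
  rcases abs_cases (p - r) with ⟨a3, b3⟩ | ⟨a3, b3⟩ <;>
  rcases abs_cases (q - s) with ⟨a4, b4⟩ | ⟨a4, b4⟩ <;>
  rcases abs_cases ((p - r) - (q - s)) with ⟨a5, b5⟩ | ⟨a5, b5⟩ <;>
  rw [a1, a2, a3, a4, a5] <;> linarith

/-- the inequality for two monotone sequences with the same sum -/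
theorem two_seq {m : ℕ} (x z : Fin m → ℝ) (hx : Monotone x) (hz : Monotone z)
    (hs : ∑ i, x i = ∑ i, z i) : ∑ i, ∑ j, max (x i - z j) 0 ≤
      ∑ i, ∑ j, (if i < j then max (x j - x i) (z j - z i) else 0) := by
  have e0 : ∀ i j : Fin m, |x i - z j| + |x j - z i| ≤ |x i - x j| + |z i - z j| + |x i - z i| +
      |x j - z j| - |(x i - z i) - (x j - z j)| := by
    intro i j
    rcases le_total i j with h | h
    · have h1 := hx h
      have h2 := hz h
      have h3 := four h1 h2
      rw [abs_sub_comm (x i) (x j), abs_sub_comm (z i) (z j), abs_of_nonneg (sub_nonneg.2 h1),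
        abs_of_nonneg (sub_nonneg.2 h2)]
      exact h3
    · have h1 := hx h
      have h2 := hz h
      have h3 := four h1 h2
      rw [abs_of_nonneg (sub_nonneg.2 h1), abs_of_nonneg (sub_nonneg.2 h2)]
      have h4 : |(x i - z i) - (x j - z j)| = |(x j - z j) - (x i - z i)| := abs_sub_comm _ _
      rw [h4]
      linarith
  -- the sums
  have e1 := Finset.sum_le_sum fun i (_ : i ∈ Finset.univ) =>
    Finset.sum_le_sum fun j (_ : j ∈ Finset.univ) => e0 i j
  have e2 : ∑ i, ∑ j, |x j - z i| = ∑ i, ∑ j, |x i - z j| := Finset.sum_comm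
  have e3 : ∀ i, (m : ℝ) * |x i - z i| ≤ ∑ j, |(x i - z i) - (x j - z j)| := by
    intro i
    have h1 := Finset.abs_sum_le_sum_abs (fun j => (x i - z i) - (x j - z j)) Finset.univ
    have h2 : ∑ j, ((x i - z i) - (x j - z j)) = m * (x i - z i) := by
      rw [Finset.sum_sub_distrib, Finset.sum_const, Finset.card_univ, Fintype.card_fin,
        nsmul_eq_mul, Finset.sum_sub_distrib, hs, sub_self, sub_zero]
    rw [h2, abs_mul, Nat.abs_cast] at h1
    exact h1
  have e4 := Finset.sum_le_sum fun i (_ : i ∈ Finset.univ) => e3 i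
  have e5 : ∑ i, ∑ _j : Fin m, |x i - z i| = ∑ i, (m : ℝ) * |x i - z i| := by
    refine Finset.sum_congr rfl fun i _ => ?_
    rw [Finset.sum_const, Finset.card_univ, Fintype.card_fin, nsmul_eq_mul]
  have e6 : ∑ _i : Fin m, ∑ j, |x j - z j| = ∑ i, (m : ℝ) * |x i - z i| := by
    rw [Finset.sum_comm, e5]
  simp only [Finset.sum_add_distrib, Finset.sum_sub_distrib] at e1
  rw [e2] at e1
  have e5' : ∑ i, ∑ _j : Fin m, |x i - z i| = ∑ i, (m : ℝ) * |x i - z i| := e5
  rw [e5', e6] at e1
  -- the function g
  have e7 := sum_sym (fun i j => |x i - x j| + |z i - z j| + |(x i - z i) - (x j - z j)|)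
    (fun i => by simp) (fun i j => by
      rw [abs_sub_comm (x i), abs_sub_comm (z i), abs_sub_comm (x i - z i)])
  have e8 : ∀ i j : Fin m, (if i < j then |x i - x j| + |z i - z j| +
      |(x i - z i) - (x j - z j)| else 0) =
      2 * (if i < j then max (x j - x i) (z j - z i) else 0) := by
    intro i j
    by_cases h : i < j
    · rw [if_pos h, if_pos h]
      have h1 := hx h.le
      have h2 := hz h.le
      rw [abs_sub_comm (x i) (x j), abs_sub_comm (z i) (z j), abs_of_nonneg (sub_nonneg.2 h1),
        abs_of_nonneg (sub_nonneg.2 h2)]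
      rcases le_total (x j - x i) (z j - z i) with h3 | h3
      · rw [max_eq_right h3, abs_of_nonneg (by linarith)]
        ring
      · rw [max_eq_left h3, abs_of_nonpos (by linarith)]
        ring
    · rw [if_neg h, if_neg h, mul_zero]
  have e9 : ∑ i, ∑ j, (if i < j then |x i - x j| + |z i - z j| +
      |(x i - z i) - (x j - z j)| else 0) =
      2 * ∑ i, ∑ j, (if i < j then max (x j - x i) (z j - z i) else 0) := by
    rw [Finset.mul_sum]
    refine Finset.sum_congr rfl fun i _ => ?_
    rw [Finset.mul_sum]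
    exact Finset.sum_congr rfl fun j _ => e8 i j
  rw [e9] at e7
  simp only [Finset.sum_add_distrib] at e7
  -- the positive parts
  have e10 : ∀ i j : Fin m, max (x i - z j) 0 = (|x i - z j| + (x i - z j)) / 2 := by
    intro i j
    rcases le_total 0 (x i - z j) with h | h
    · rw [max_eq_left h, abs_of_nonneg h]
      ring
    · rw [max_eq_right h, abs_of_nonpos h]
      ring
  have e11 : ∑ i, ∑ j, (x i - z j) = 0 := by
    simp only [Finset.sum_sub_distrib]
    rw [Finset.sum_const, Finset.sum_comm, Finset.sum_const, hs, sub_self]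
  have e12 : ∑ i, ∑ j, max (x i - z j) 0 = (∑ i, ∑ j, |x i - z j|) / 2 := by
    calc ∑ i, ∑ j, max (x i - z j) 0 = ∑ i, ∑ j, (|x i - z j| + (x i - z j)) / 2 :=
          Finset.sum_congr rfl fun i _ => Finset.sum_congr rfl fun j _ => e10 i j
      _ = (∑ i, ∑ j, |x i - z j| + ∑ i, ∑ j, (x i - z j)) / 2 := by
          simp only [← Finset.sum_div, Finset.sum_add_distrib]
      _ = _ := by rw [e11, add_zero]
  rw [e12]
  linarith

theorem pf_IN3D : T_IN3D := by
  intro m x y z d hx hy hz hyx hyz
  -- the terms with y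
  have h1 : ∀ i j : Fin m, max (y j - x i) 0 + max (y j - z i) 0 ≤
      (if i < j then (y j - y i) + min (x j - x i) (z j - z i) else 0) := by
    intro i j
    by_cases h : i < j
    · rw [if_pos h]
      have a1 := hx h.le
      have a2 := hy h.le
      have a3 := hz h.le
      have a4 := hyx i
      have a5 := hyx j
      have a6 := hyz i
      have a7 := hyz j
      rcases le_total (y j - x i) 0 with b1 | b1 <;> rcases le_total (y j - z i) 0 with b2 | b2 <;>
      rcases le_total (x j - x i) (z j - z i) with b3 | b3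
      all_goals first
        | rw [max_eq_right b1] | rw [max_eq_left b1]
      all_goals first
        | rw [max_eq_right b2] | rw [max_eq_left b2]
      all_goals first
        | rw [min_eq_left b3] | rw [min_eq_right b3]
      all_goals linarith
    · rw [if_neg h]
      have a2 := hy (not_lt.1 h)
      have a4 := hyx i
      have a6 := hyz i
      rw [max_eq_right (by linarith), max_eq_right (by linarith), add_zero]
  rcases Nat.eq_zero_or_pos m with h0 | h0
  · subst h0
    simp
  have hm : (0 : ℝ) < m := by exact_mod_cast h0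
  set D : ℝ := (∑ i, x i - ∑ i, z i) / m with hD
  have hDm : (m : ℝ) * D = ∑ i, x i - ∑ i, z i := by
    rw [hD]
    field_simp
  -- the shifted sequence
  have h2 : ∑ i, x i = ∑ i, (z i + D) := by
    rw [Finset.sum_add_distrib, Finset.sum_const, Finset.card_univ, Fintype.card_fin,
      nsmul_eq_mul, hDm]
    ring
  have h3 := two_seq x (fun i => z i + D) hx (fun i j h => add_le_add (hz h) le_rfl) h2
  have h4 : ∀ i j : Fin m, (if i < j then max (x j - x i) ((z j + D) - (z i + D)) else 0) =
      (if i < j then max (x j - x i) (z j - z i) else 0) := by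
    intro i j
    rw [show (z j + D) - (z i + D) = z j - z i by ring]
  simp only [h4] at h3
  -- the third term
  have h5 : ∀ i j : Fin m, max (x i - z j - d) 0 ≤ max (x i - (z j + D)) 0 + max (D - d) 0 := by
    intro i j
    have a1 := le_max_left (x i - (z j + D)) 0
    have a2 := le_max_left (D - d) 0
    have a3 := le_max_right (x i - (z j + D)) 0
    have a4 := le_max_right (D - d) 0
    exact max_le (by linarith) (by linarith)
  have h6 : ∑ i, ∑ j, max (x i - z j - d) 0 ≤ ∑ i, ∑ j, max (x i - (z j + D)) 0 +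
      m * max (∑ i, x i - ∑ i, z i - m * d) 0 := by
    have a1 := Finset.sum_le_sum fun i (_ : i ∈ Finset.univ) =>
      Finset.sum_le_sum fun j (_ : j ∈ Finset.univ) => h5 i j
    have a2 : ∑ _i : Fin m, ∑ _j : Fin m, max (D - d) 0 =
        m * max (∑ i, x i - ∑ i, z i - m * d) 0 := by
      rw [Finset.sum_const, Finset.sum_const, Finset.card_univ, Fintype.card_fin, nsmul_eq_mul,
        nsmul_eq_mul, ← hDm, ← mul_sub]
      congr 1
      rw [mul_max_of_nonneg _ _ hm.le, mul_zero]
    simp only [Finset.sum_add_distrib] at a1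
    rw [a2] at a1
    exact a1
  have h7 := Finset.sum_le_sum fun i (_ : i ∈ Finset.univ) =>
    Finset.sum_le_sum fun j (_ : j ∈ Finset.univ) => h1 i j
  have h8 : ∀ i j : Fin m, (if i < j then (x j - x i) + (y j - y i) + (z j - z i) else 0) =
      (if i < j then (y j - y i) + min (x j - x i) (z j - z i) else 0) +
      (if i < j then max (x j - x i) (z j - z i) else 0) := by
    intro i j
    by_cases h : i < j
    · rw [if_pos h, if_pos h, if_pos h]
      have := min_add_max (x j - x i) (z j - z i)
      linarith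
    · rw [if_neg h, if_neg h, if_neg h, add_zero]
  have h9 : ∑ i, ∑ j, (if i < j then (x j - x i) + (y j - y i) + (z j - z i) else 0) =
      ∑ i, ∑ j, (if i < j then (y j - y i) + min (x j - x i) (z j - z i) else 0) +
      ∑ i, ∑ j, (if i < j then max (x j - x i) (z j - z i) else 0) := by
    rw [← Finset.sum_add_distrib]
    refine Finset.sum_congr rfl fun i _ => ?_
    rw [← Finset.sum_add_distrib]
    exact Finset.sum_congr rfl fun j _ => h8 i j
  rw [h9]
  have h10 : ∑ i, ∑ j, (max (y j - x i) 0 + max (y j - z i) 0 + max (x i - z j - d) 0) =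
      ∑ i, ∑ j, (max (y j - x i) 0 + max (y j - z i) 0) +
      ∑ i, ∑ j, max (x i - z j - d) 0 := by
    rw [← Finset.sum_add_distrib]
    refine Finset.sum_congr rfl fun i _ => ?_
    rw [← Finset.sum_add_distrib]
  rw [h10]
  linarith

end Pool.Agent.H55.GB
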