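import Pool.Agent.H86.GA.TBA
import Pool.Agent.H38.GM.PLR
import Pool.Agent.H34.GM.MSR

/-!
Board gb (MP_52e316_nt, hybrid fourth moment): the sharp order `δ ^ (m ^ 2 - 1)` of the mass of the
bump functions near the unit matrix.
-/

set_option autoImplicit false

namespace Pool.Agent.H55.GB

open MeasureTheory Pool.Agent.H34.GM Pool.Agent.H34.GZ Pool.Agent.H34.GU Pool.Agent.H34.GA
  Pool.Agent.H86.GA

/-- the mass of the bump functions, sharp -/
def T_TBS : Prop := ∀ (m : ℕ) (χ : ℝ → ℝ), 1 ≤ m → Prof χ → ∃ c C : ℝ, 0 < c ∧ 0 < C ∧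
  ∀ δ : ℝ, 0 < δ → δ ≤ 1 / 2 →
    c * δ ^ (m ^ 2 - 1) ≤ tb m χ δ ∧ tb m χ δ ≤ C * δ ^ (m ^ 2 - 1)

/-- the integral of `1 / r` -/
theorem lint_inv (δ : ℝ) (h0 : 0 < δ) :
    ∫⁻ r in Set.Ioi (0 : ℝ), (Set.Icc (Real.exp (-δ)) (Real.exp δ)).indicator
      (fun r => ENNReal.ofReal r⁻¹) r = ENNReal.ofReal (2 * δ) := by
  have ha : 0 < Real.exp (-δ) := Real.exp_pos _
  have hb : 0 < Real.exp δ := Real.exp_pos _
  have hle : Real.exp (-δ) ≤ Real.exp δ := Real.exp_le_exp.2 (by linarith)
  rw [setLIntegral_indicator measurableSet_Icc]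
  have h1 : Set.Icc (Real.exp (-δ)) (Real.exp δ) ∩ Set.Ioi (0 : ℝ) =
      Set.Icc (Real.exp (-δ)) (Real.exp δ) :=
    Set.inter_eq_left.mpr fun t ht => lt_of_lt_of_le ha ht.1
  rw [h1, setLIntegral_congr (Ioc_ae_eq_Icc).symm, ← ofReal_integral_eq_lintegral_ofReal]
  · rw [← intervalIntegral.integral_of_le hle, integral_inv_of_pos ha hb, ← Real.exp_sub,
      Real.log_exp]
    congr 1
    ring
  · have h2 : IntervalIntegrable (fun t : ℝ => t⁻¹) volume (Real.exp (-δ)) (Real.exp δ) := by
      apply intervalIntegral.intervalIntegrable_inv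
      · intro t ht
        rw [Set.uIcc_of_le hle] at ht
        exact (lt_of_lt_of_le ha ht.1).ne'
      · exact continuousOn_id
    exact (intervalIntegrable_iff_integrableOn_Ioc_of_le hle).mp h2
  · refine (ae_restrict_iff' measurableSet_Ioc).mpr (Filter.Eventually.of_forall fun t ht => ?_)
    exact inv_nonneg.mpr (lt_trans ha ht.1).le

open Pool.Agent.H14.GZ.TLB in
/-- polar coordinates for the bump functions -/
theorem mass_polar (m : ℕ) (χ : ℝ → ℝ) (hm1 : 1 ≤ m) (hχ : Prof χ) (δ : ℝ) (h0 : 0 < δ) :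
    ∫⁻ z : V m, (if Real.exp (-δ) ≤ aN (mt z) ∧ aN (mt z) ≤ Real.exp δ then
      ENNReal.ofReal ‖bi m χ δ ((aN (mt z))⁻¹ • mt z)‖ else 0) ∂(hm m) =
    L1 (bi m χ δ) 1 * ENNReal.ofReal (2 * δ) := by
  classical
  have HAR : T_HAR := Pool.Agent.H44.GMF.pf_HAR
  have PLR : T_PLR := pf_PLR pf_MSR HAR
  have hnzm : Measurable (fun z : V m => (aN (mt z))⁻¹ • z) := (meas_aN.inv).smul measurable_id
  have hφm : Measurable (fun z : V m => bf χ δ ((aN (mt z))⁻¹ • mt z)) :=
    (bf_contDiff hχ δ).continuous.measurable.comp hnzm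
  have hbm : Measurable (fun z : V m => ENNReal.ofReal ‖bi m χ δ ((aN (mt z))⁻¹ • mt z)‖) := by
    have e : (fun z : V m => ENNReal.ofReal ‖bi m χ δ ((aN (mt z))⁻¹ • mt z)‖) =
        fun z : V m => ENNReal.ofReal |bf χ δ ((aN (mt z))⁻¹ • mt z)| := by
      funext z
      show ENNReal.ofReal ‖((bf χ δ ((aN (mt z))⁻¹ • mt z) : ℝ) : ℂ)‖ = _
      rw [Complex.norm_real, Real.norm_eq_abs]
    rw [e]
    exact hφm.abs.ennreal_ofReal
  have hset : MeasurableSet {z : V m | Real.exp (-δ) ≤ aN (mt z) ∧ aN (mt z) ≤ Real.exp δ} :=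
    (measurableSet_le measurable_const meas_aN).inter (measurableSet_le meas_aN measurable_const)
  have hfm : Measurable (fun z : V m => (if Real.exp (-δ) ≤ aN (mt z) ∧ aN (mt z) ≤ Real.exp δ then
      ENNReal.ofReal ‖bi m χ δ ((aN (mt z))⁻¹ • mt z)‖ else 0)) :=
    Measurable.ite hset hbm measurable_const
  rw [PLR m hm1 _ hfm]
  have hin : ∀ r : ℝ, 0 < r → (∫⁻ z in Shell m,
      (if Real.exp (-δ) ≤ aN (mt ((r * (aN (mt z))⁻¹) • z)) ∧
        aN (mt ((r * (aN (mt z))⁻¹) • z)) ≤ Real.exp δ then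
        ENNReal.ofReal ‖bi m χ δ ((aN (mt ((r * (aN (mt z))⁻¹) • z)))⁻¹ •
          mt ((r * (aN (mt z))⁻¹) • z))‖ else 0) ∂(hm m)) * ENNReal.ofReal r⁻¹ =
      L1 (bi m χ δ) 1 * (Set.Icc (Real.exp (-δ)) (Real.exp δ)).indicator
        (fun r => ENNReal.ofReal r⁻¹) r := by
    intro r hr
    have hz : ∀ z ∈ Shell m, aN (mt ((r * (aN (mt z))⁻¹) • z)) = r ∧
        (aN (mt ((r * (aN (mt z))⁻¹) • z)))⁻¹ • mt ((r * (aN (mt z))⁻¹) • z) =
          (((1 : ℝ)⁻¹ * (aN (mt z))⁻¹) • mt z) := by
      intro z hz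
      have ha : 0 < aN (mt z) := lt_of_lt_of_le one_pos hz.1
      have h1 : aN (mt ((r * (aN (mt z))⁻¹) • z)) = r := by
        rw [PLR_aN m hm1 _ (by positivity), mul_assoc, inv_mul_cancel₀ ha.ne', mul_one]
      refine ⟨h1, ?_⟩
      rw [h1]
      have h2 : mt ((r * (aN (mt z))⁻¹) • z) = (r * (aN (mt z))⁻¹) • mt z := rfl
      rw [h2, smul_smul, inv_one, one_mul, ← mul_assoc, inv_mul_cancel₀ hr.ne', one_mul]
    by_cases hrI : r ∈ Set.Icc (Real.exp (-δ)) (Real.exp δ)
    · rw [Set.indicator_of_mem hrI]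
      congr 1
      unfold L1
      refine setLIntegral_congr_fun meas_Shell fun z hzS => ?_
      obtain ⟨h1, h2⟩ := hz z hzS
      rw [h2, h1, if_pos (show Real.exp (-δ) ≤ r ∧ r ≤ Real.exp δ from hrI)]
    · rw [Set.indicator_of_notMem hrI, mul_zero]
      have : (∫⁻ z in Shell m,
      (if Real.exp (-δ) ≤ aN (mt ((r * (aN (mt z))⁻¹) • z)) ∧
        aN (mt ((r * (aN (mt z))⁻¹) • z)) ≤ Real.exp δ then
        ENNReal.ofReal ‖bi m χ δ ((aN (mt ((r * (aN (mt z))⁻¹) • z)))⁻¹ •
          mt ((r * (aN (mt z))⁻¹) • z))‖ else 0) ∂(hm m)) = ∫⁻ z in Shell m, 0 ∂(hm m) := by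
        refine setLIntegral_congr_fun meas_Shell fun z hzS => ?_
        obtain ⟨h1, h2⟩ := hz z hzS
        rw [h1, if_neg (show ¬ (Real.exp (-δ) ≤ r ∧ r ≤ Real.exp δ) from hrI)]
      rw [this, lintegral_zero, zero_mul]
  have hIm : Measurable ((Set.Icc (Real.exp (-δ)) (Real.exp δ)).indicator
      (fun r : ℝ => ENNReal.ofReal r⁻¹)) :=
    (measurable_inv.ennreal_ofReal).indicator measurableSet_Icc
  rw [setLIntegral_congr_fun measurableSet_Ioi (fun r hr => hin r hr), lintegral_const_mul _ hIm,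
    lint_inv δ h0]

open Pool.Agent.H14.GZ.TLB in
theorem pf_TBS : T_TBS := by
  classical
  intro m χ hm1 hχ
  obtain ⟨c0, C0, A0, hc0, hC0, hTBA⟩ := pf_TBA m χ hm1 hχ
  obtain ⟨K, κ, hK, hκ, hnear⟩ := near1 pf_PWN m hm1
  have hmR : (1 : ℝ) ≤ m := by exact_mod_cast hm1
  set L : ℝ := 4 * m * (1 + K) + 4 * K + 1 / κ with hL
  have hL0 : 0 < L := by positivity
  have hL1 : 4 ≤ L := by
    have h1 : 0 < 4 * K + 1 / κ := by positivity
    have h2 : 0 < (m : ℝ) * K := by positivity
    nlinarith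
  set cm : ℝ := (((m.factorial : ℝ) * 2 ^ m) ^ m)⁻¹ * (2 / L) ^ (m * m) with hcm
  have hcm0 : 0 < cm := by positivity
  refine ⟨cm / 2, (Real.exp (m * m)) * 8 ^ (m * m) / 2, by positivity, by positivity, ?_⟩
  intro δ h0 h1
  have hpow : δ ^ (m * m) = δ * δ ^ (m ^ 2 - 1) := by
    rw [← pow_succ']
    congr 1
    have : 1 ≤ m ^ 2 := Nat.one_le_pow _ _ hm1
    rw [Nat.sub_add_cancel this]
    ring
  have htb0 : 0 ≤ tb m χ δ := norm_nonneg _
  have hmass := mass_polar m χ hm1 hχ δ h0
  rw [(hTBA δ h0 h1).2.2.2, ← ENNReal.ofReal_mul htb0] at hmass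
  have hed1 : 1 + δ ≤ Real.exp δ := by linarith [Real.add_one_le_exp δ]
  have hed2 : Real.exp (-δ) ≤ 1 - δ / 2 := by
    rw [Real.exp_neg, inv_le_comm₀ (Real.exp_pos _) (by linarith)]
    refine le_trans ?_ hed1
    rw [inv_le_iff_one_le_mul₀ (by linarith)]
    nlinarith
  constructor
  · -- the lower bound
    set d : ℝ := δ / L with hd
    have hd0 : 0 < d := by positivity
    have hdL : L * d = δ := by
      rw [hd]
      field_simp
    have hd1 : d ≤ 1 := by nlinarith
    have hKd' : 4 * (K * d) ≤ δ := by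
      have h2 : 4 * K * d ≤ L * d := mul_le_mul_of_nonneg_right (by
        have : 0 < 4 * (m : ℝ) * (1 + K) + 1 / κ := by positivity
        linarith) hd0.le
      rw [hdL] at h2
      linarith
    have hKd : K * d ≤ 1 / 4 := by linarith
    have hκd : d ≤ κ := by
      have h2 : 1 / κ * d ≤ L * d := mul_le_mul_of_nonneg_right (by
        have : 0 < 4 * (m : ℝ) * (1 + K) + 4 * K := by positivity
        linarith) hd0.le
      rw [hdL, one_div, inv_mul_le_iff₀ hκ] at h2
      nlinarith
    have hd2 : 2 * (1 + K) * d ≤ δ / (2 * m) := by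
      rw [le_div_iff₀ (by positivity)]
      have h2 : 4 * m * (1 + K) * d ≤ L * d := mul_le_mul_of_nonneg_right (by
        have : 0 < 4 * K + 1 / κ := by positivity
        linarith) hd0.le
      rw [hdL] at h2
      linarith
    have hA : ENNReal.ofReal (cm * δ ^ (m * m)) ≤ hm m {z | sz (mt z - 1) ≤ d} := by
      refine le_trans (le_of_eq ?_) (hm_ball d hd0 hd1 fun z hz => (hnear d z hd0 hκd hz).1)
      congr 1
      rw [hcm, mul_assoc, ← mul_pow, hd]
      congr 2
      ring
    have hSm : MeasurableSet {z : V m | sz (mt z - 1) ≤ d} := by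
      have h5 : Measurable (fun z : V m => sz (mt z - 1)) := by
        have : (fun z : V m => sz (mt z - 1)) =
            fun z : V m => ‖z - (fun i j => (1 : Mat m) i j)‖ := by
          funext z
          rfl
        rw [this]
        exact (measurable_id.sub_const _).norm
      exact measurableSet_le h5 measurable_const
    have h3 : hm m {z : V m | sz (mt z - 1) ≤ d} ≤ ENNReal.ofReal (tb m χ δ * (2 * δ)) := by
      rw [← hmass, ← lintegral_indicator_one hSm]
      refine lintegral_mono (fun z => ?_)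
      by_cases hz : z ∈ {z : V m | sz (mt z - 1) ≤ d}
      · rw [Set.indicator_of_mem hz, Pi.one_apply]
        have hzs : sz (mt z - 1) ≤ d := hz
        have h4 : |aN (mt z) - 1| ≤ K * d := (hnear d _ hd0 hκd hzs).2
        obtain ⟨h6, h7⟩ := abs_le.1 h4
        have h12 := div_one hd0 hK hKd h4 hzs
        have h16 : bi m χ δ ((aN (mt z))⁻¹ • mt z) = 1 := by
          show ((bf χ δ ((aN (mt z))⁻¹ • mt z) : ℝ) : ℂ) = 1
          rw [bf_one' hm1 hχ h0 (h12.trans hd2), Complex.ofReal_one]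
        rw [if_pos ⟨by linarith, by linarith⟩, h16, norm_one, ENNReal.ofReal_one]
      · rw [Set.indicator_of_notMem hz]
        exact bot_le
    have h4 := (ENNReal.ofReal_le_ofReal_iff (by positivity)).1 (hA.trans h3)
    rw [hpow] at h4
    have h5 : δ * (cm / 2 * δ ^ (m ^ 2 - 1)) ≤ δ * tb m χ δ := by nlinarith
    exact le_of_mul_le_mul_left h5 h0
  · -- the upper bound
    have he4 : Real.exp δ ≤ 1 + 2 * δ := by
      have h2 := Real.exp_bound_div_one_sub_of_interval (x := δ) h0.le (by linarith)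
      refine h2.trans ?_
      rw [div_le_iff₀ (by linarith)]
      nlinarith
    set S : Set (V m) := Metric.closedBall (fun i j => (1 : Mat m) i j) (4 * δ) ∩
      {z : V m | Real.exp (-δ) ≤ aN (mt z)} with hS
    have hSmeas : MeasurableSet S :=
      measurableSet_closedBall.inter (measurableSet_le measurable_const meas_aN)
    have hle : ∫⁻ z : V m, (if Real.exp (-δ) ≤ aN (mt z) ∧ aN (mt z) ≤ Real.exp δ then
      ENNReal.ofReal ‖bi m χ δ ((aN (mt z))⁻¹ • mt z)‖ else 0) ∂(hm m) ≤ hm m S := by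
      rw [← lintegral_indicator_one hSmeas]
      refine lintegral_mono (fun z => ?_)
      by_cases hz : Real.exp (-δ) ≤ aN (mt z) ∧ aN (mt z) ≤ Real.exp δ
      · rw [if_pos hz]
        by_cases hb : bf χ δ ((aN (mt z))⁻¹ • mt z) = 0
        · have : bi m χ δ ((aN (mt z))⁻¹ • mt z) = 0 := by
            show ((bf χ δ ((aN (mt z))⁻¹ • mt z) : ℝ) : ℂ) = 0
            rw [hb, Complex.ofReal_zero]
          rw [this, norm_zero, ENNReal.ofReal_zero]
          exact bot_le
        · have hzS : z ∈ S := by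
            refine ⟨?_, hz.1⟩
            have hs := sz_sub_one h0.le (bf_supp hχ h0 hb)
            have ha : 0 < aN (mt z) := lt_of_lt_of_le (Real.exp_pos _) hz.1
            set w : Mat m := (aN (mt z))⁻¹ • mt z with hw
            have hzw : mt z = aN (mt z) • w := by
              rw [hw, smul_smul, mul_inv_cancel₀ ha.ne', one_smul]
            have ha1 : |aN (mt z) - 1| ≤ 2 * δ := by
              rw [abs_le]
              constructor
              · have : 1 - δ ≤ Real.exp (-δ) := by linarith [Real.add_one_le_exp (-δ)]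
                linarith [hz.1]
              · linarith [hz.2]
            have hz4 : sz (mt z - 1) ≤ 4 * δ := by
              rw [sz_le (by positivity)]
              intro i j
              have h2 : |(1 : Mat m) i j| ≤ 1 := by
                rw [Matrix.one_apply]
                split_ifs <;> simp
              have h3 := (entry_le (w - 1) i j).trans hs
              have e : (mt z - 1) i j = aN (mt z) * (w - 1) i j +
                  (aN (mt z) - 1) * (1 : Mat m) i j := by
                conv_lhs => rw [hzw]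
                rw [Matrix.sub_apply, Matrix.smul_apply, smul_eq_mul, Matrix.sub_apply]
                ring
              rw [e]
              refine (abs_add_le _ _).trans ?_
              rw [abs_mul, abs_mul, abs_of_pos ha]
              have h5 : aN (mt z) * |(w - 1) i j| ≤ 2 * δ :=
                mul_le_mul (by linarith [hz.2]) h3 (abs_nonneg _) (by norm_num)
              have h6 : |aN (mt z) - 1| * |(1 : Mat m) i j| ≤ 2 * δ * 1 :=
                mul_le_mul ha1 h2 (abs_nonneg _) (by positivity)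
              linarith
            rw [Metric.mem_closedBall, dist_eq_norm]
            exact hz4
          rw [Set.indicator_of_mem hzS, Pi.one_apply, ← ENNReal.ofReal_one]
          refine ENNReal.ofReal_le_ofReal ?_
          show ‖((bf χ δ ((aN (mt z))⁻¹ • mt z) : ℝ) : ℂ)‖ ≤ 1
          have hb0 : 0 ≤ bf χ δ ((aN (mt z))⁻¹ • mt z) := hχ.lo _
          have hb1 : bf χ δ ((aN (mt z))⁻¹ • mt z) ≤ 1 := hχ.hi _
          rw [Complex.norm_real, Real.norm_of_nonneg hb0]
          exact hb1
      · rw [if_neg hz]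
        exact bot_le
    have hdens : ∀ z ∈ S, ENNReal.ofReal ((|(mt z).det| ^ m)⁻¹) ≤
        ENNReal.ofReal (Real.exp (m * m)) := by
      intro z hz
      refine ENNReal.ofReal_le_ofReal ?_
      have h2 : Real.exp (-δ) ≤ aN (mt z) := hz.2
      have h3 : |(mt z).det| = aN (mt z) ^ m := by
        unfold aN
        rw [← Real.rpow_natCast, ← Real.rpow_mul (abs_nonneg _), one_div,
          inv_mul_cancel₀ (by positivity), Real.rpow_one]
      have h4 : Real.exp (-(m * m : ℝ)) ≤ |(mt z).det| ^ m := by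
        rw [h3, ← pow_mul]
        calc Real.exp (-(m * m : ℝ)) ≤ Real.exp (-δ) ^ (m * m) := by
              rw [← Real.exp_nat_mul]
              refine Real.exp_le_exp.2 ?_
              push_cast
              nlinarith
          _ ≤ aN (mt z) ^ (m * m) := pow_le_pow_left₀ (Real.exp_pos _).le h2 _
      calc (|(mt z).det| ^ m)⁻¹ ≤ (Real.exp (-(m * m : ℝ)))⁻¹ :=
            inv_anti₀ (Real.exp_pos _) h4
        _ = Real.exp (m * m) := by rw [Real.exp_neg, inv_inv]
    have hvol : hm m S ≤ ENNReal.ofReal (Real.exp (m * m) * (2 * (4 * δ)) ^ (m * m)) := by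
      unfold hm
      rw [withDensity_apply _ hSmeas]
      calc ∫⁻ z in S, ENNReal.ofReal ((|(mt z).det| ^ m)⁻¹) ≤
            ∫⁻ _z in S, ENNReal.ofReal (Real.exp (m * m)) := setLIntegral_mono' hSmeas hdens
        _ = ENNReal.ofReal (Real.exp (m * m)) * volume S := by rw [setLIntegral_const]
        _ ≤ ENNReal.ofReal (Real.exp (m * m)) *
            volume (Metric.closedBall (fun i j => (1 : Mat m) i j : V m) (4 * δ)) := by
            gcongr
            exact Set.inter_subset_left
        _ = ENNReal.ofReal (Real.exp (m * m) * (2 * (4 * δ)) ^ (m * m)) := by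
            rw [zlb_vol (4 * δ) (by positivity), ← ENNReal.ofReal_mul (Real.exp_pos _).le]
    have h5 : tb m χ δ * (2 * δ) ≤ Real.exp (m * m) * (2 * (4 * δ)) ^ (m * m) := by
      refine (ENNReal.ofReal_le_ofReal_iff (by positivity)).1 ?_
      rw [← hmass]
      exact hle.trans hvol
    have h6 : (2 * (4 * δ)) ^ (m * m) = 8 ^ (m * m) * (δ * δ ^ (m ^ 2 - 1)) := by
      rw [← hpow, ← mul_pow]
      congr 1
      ring
    rw [h6] at h5
    have h7 : δ * tb m χ δ ≤ δ * (Real.exp (m * m) * 8 ^ (m * m) / 2 * δ ^ (m ^ 2 - 1)) := by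
      nlinarith
    exact le_of_mul_le_mul_left h7 h0

end Pool.Agent.H55.GB
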